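import Pool.Agent.Helper8.UL.Base2

/-! Part BM of swarm UL2: two parts of kind `B` at `p, q`. -/

set_option autoImplicit false

open Set

namespace Pool.UL.H54.BM

open Pool.UL

theorem inn_two {E : ℕ → ℕ → Prop} {H H' : Set ℕ} {p q w : ℕ} {L L' : List (ℕ × ℕ)}
    (h : Inn E H p L) (h' : Inn E H' q L') (hpq : p ≠ q) (x : ℕ × ℕ) :
    L.count x + L'.count x ≤ ind3 p q w x.1 + ind3 p q w x.2 := by
  have h1 := h.count_le (p := p) (q := q) (w := w) (Or.inl rfl) x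
  have h2 := h'.count_le (p := p) (q := q) (w := w) (Or.inr (Or.inl rfl)) x
  by_cases hx : x ∈ L
  · have hx' : x ∉ L' := fun h3 => hpq ((h.mem.1 hx).2.1.symm.trans (h'.mem.1 h3).2.1)
    rw [List.count_eq_zero_of_not_mem hx']
    omega
  · rw [List.count_eq_zero_of_not_mem hx]
    omega

theorem out_two {E : ℕ → ℕ → Prop} {H H' : Set ℕ} {p q w : ℕ} {L L' : List (ℕ × ℕ)}
    (h : Out E p H L) (h' : Out E q H' L') (hpq : p ≠ q) (x : ℕ × ℕ) :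
    L.count x + L'.count x ≤ ind3 p q w x.1 + ind3 p q w x.2 := by
  have h1 := h.count_le (p := p) (q := q) (w := w) (Or.inl rfl) x
  have h2 := h'.count_le (p := p) (q := q) (w := w) (Or.inr (Or.inl rfl)) x
  by_cases hx : x ∈ L
  · have hx' : x ∉ L' := fun h3 => hpq ((h.mem.1 hx).1.symm.trans (h'.mem.1 h3).1)
    rw [List.count_eq_zero_of_not_mem hx']
    omega
  · rw [List.count_eq_zero_of_not_mem hx]
    omega

theorem main : S_BM := by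
  intro E Δ p q w H₁ H₂ κ₁ κ₂ hΔ hpq hA₁ hA₂ hdis hB₁ hB₂
  obtain ⟨W1, bq1, bp1, tp1, tq1, el1, eh1, rl1, rh1, ip1, iq1, op1, oq1, f1, c1⟩ := hB₁
  obtain ⟨W2, bq2, bp2, tp2, tq2, el2, eh2, rl2, rh2, ip2, iq2, op2, oq2, f2, c2⟩ := hB₂
  refine ⟨W2 ++ W1, bq1 ++ bq2, bp1 ++ bp2, tp1 ++ tp2, tq1 ++ tq2,
    el2 ++ el1 ++ [Ev.swap bp1 bq2], [Ev.swap tp2 tq1] ++ eh1 ++ eh2, ?_, ?_,
    ip1.append ip2 hdis, iq1.append iq2 hdis, op1.append op2 hdis, oq1.append oq2 hdis, ?_, ?_⟩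
  · have g1 : Run (W2 ++ bq2 ++ bp2) el1 (W2 ++ (W1 ++ bq1 ++ bp1) ++ (bq2 ++ bp2)) :=
      (rl1.insert W2 (bq2 ++ bp2)).cast (by simp) (by simp)
    have g2 : Run (W2 ++ (W1 ++ bq1 ++ bp1) ++ (bq2 ++ bp2)) [Ev.swap bp1 bq2]
        (W2 ++ W1 ++ (bq1 ++ bq2) ++ (bp1 ++ bp2)) :=
      (Run.swap1 (W2 ++ W1 ++ bq1) bp1 bq2 bp2).cast (by simp) (by simp)
    exact (rl2.append g1).append g2
  · have g1 : Run (W2 ++ W1 ++ (tp1 ++ tp2) ++ (tq1 ++ tq2)) [Ev.swap tp2 tq1]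
        (W2 ++ (W1 ++ tp1 ++ tq1) ++ (tp2 ++ tq2)) :=
      (Run.swap1 (W2 ++ W1 ++ tp1) tp2 tq1 tq2).cast (by simp) (by simp)
    have g2 : Run (W2 ++ (W1 ++ tp1 ++ tq1) ++ (tp2 ++ tq2)) eh1 (W2 ++ tp2 ++ tq2) :=
      (rh1.remove W2 (tp2 ++ tq2)).cast (by simp) (by simp)
    exact (g1.append g2).append rh2
  · have h1 := ((f1.append f2 hdis).swap bp1 bq2).swap tp2 tq1
    refine h1.perm ?_
    classical
    rw [List.perm_iff_count]
    intro a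
    simp only [List.count_append]
    omega
  · intro x
    have k1 := c1 x
    have k2 := c2 x
    have s1 := cost_swap (ip1.length_le hΔ) (iq2.length_le hΔ) x
    have s2 := cost_swap (op2.length_le hΔ) (oq1.length_le hΔ) x
    have t1 := Nat.mul_le_mul_left Δ (inn_two (w := w) ip1 iq2 hpq x)
    have t2 := Nat.mul_le_mul_left Δ (out_two (w := w) op2 oq1 hpq x)
    have e1 : (ind3 p q w x.1 + ind3 p q w x.2) * (2 * Δ) =
      Δ * (ind3 p q w x.1 + ind3 p q w x.2) + Δ * (ind3 p q w x.1 + ind3 p q w x.2) := by ring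
    rw [Nat.mul_add] at t1 t2
    simp only [cr_append] at k1 k2 ⊢
    show _ ≤ κ₁ x + κ₂ x + (ind3 p q w x.1 + ind3 p q w x.2) * (2 * Δ)
    rw [e1]
    omega

end Pool.UL.H54.BM
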