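import Pool.Agent.Helper8.UL.Base2

/-! Part N3 of swarm UL2: from N2 by time reversal. -/

set_option autoImplicit false

open Set

namespace Pool.UL.H54.N3

open Pool.UL

theorem degLe_rev {E : ℕ → ℕ → Prop} {Δ : ℕ} (h : DegLe E Δ) : DegLe (revE E) Δ := by
  intro v L hL hv
  have h1 := h v (L.map Prod.swap) (hL.map Prod.swap_injective) (fun e he => by
    rw [List.mem_map] at he
    obtain ⟨x, hx, rfl⟩ := he
    obtain ⟨h1, h2⟩ := hv x hx
    exact ⟨h1.symm, h2⟩)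
  simpa using h1

theorem att_rev {E : ℕ → ℕ → Prop} {H : Set ℕ} {p q : ℕ} (h : Att E H p q) :
    Att (revE E) H q p := by
  obtain ⟨h1, h2, h3⟩ := h
  refine ⟨h2, h1, fun v hv u hu => ?_⟩
  rcases h3 v hv u (Or.symm hu) with h | h | h
  · exact Or.inl h
  · exact Or.inr (Or.inr h)
  · exact Or.inr (Or.inl h)

theorem bgood_mono {E : ℕ → ℕ → Prop} {p q : ℕ} {H H' : Set ℕ} {κ κ' : ℕ × ℕ → ℕ}
    (h : BGood E p q H κ) (hH : ∀ v, v ∈ H ↔ v ∈ H') (hκ : ∀ x, κ x ≤ κ' x) :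
    BGood E p q H' κ' := by
  have e : H = H' := Set.ext hH
  subst e
  obtain ⟨W, bq, bp, tp, tq, el, eh, h1, h2, h3, h4, h5, h6, h7, h8⟩ := h
  exact ⟨W, bq, bp, tp, tq, el, eh, h1, h2, h3, h4, h5, h6, h7, fun x => (h8 x).trans (hκ x)⟩

theorem main (h : S_DUAL) (h2 : S_N2) : S_N3 := by
  intro E Δ p q l HA HX HC HZ XA XA' XC XC' κA κX κC κZ hΔ hpq hpl hql aA aX aC aZ hqA hqX hpC hpZ
    d1 d2 d3 n1 n2 n3 hl mA bX mC bZ
  obtain ⟨-, hB, hM⟩ := h
  have key := h2 (revE E) Δ q p l HC HZ HA HX XC' XC XA' XA (fun x => κC (x.2, x.1))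
    (fun x => κZ (x.2, x.1)) (fun x => κA (x.2, x.1)) (fun x => κX (x.2, x.1)) (degLe_rev hΔ)
    hpq.symm hql hpl (att_rev aC) (att_rev aZ) (att_rev aA) (att_rev aX) hpC hpZ hqA hqX
    (fun v hv => ⟨d3 v hv, fun h => (d1 v h).2.1 hv, fun h => (d2 v h).1 hv⟩)
    (fun v hv => ⟨fun h => (d1 v h).2.2 hv, fun h => (d2 v h).2 hv⟩)
    (fun v hv => (d1 v hv).1) n1 n3 n2
    (fun v hv => by
      have := hl v (Or.symm hv)
      tauto)
    (hM E Δ l q HC XC XC' κC mC) (hB E l q HZ κZ bZ) (hM E Δ l p HA XA XA' κA mA)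
    (hB E l p HX κX bX)
  have key2 := hB (revE E) q p _ _ key
  have hs : ∀ v, ind3 q p l v = ind3 p q l v := by
    intro v
    unfold ind3
    congr 1
    apply propext
    tauto
  refine bgood_mono key2 (fun v => ?_) (fun x => ?_)
  · simp only [mem_ofPred_eq]
    tauto
  · simp only [hs, Prod.mk.eta]
    have e1 : XC' + XC + XA' + XA = XA + XA' + XC + XC' := by ring
    rw [e1, Nat.add_comm (ind3 p q l x.2)]
    omega

end Pool.UL.H54.N3
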