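import Pool.Agent.Helper8.UL.Spec2
import Pool.Agent.Helper29.UL.ORD

/-! ORD2: linear extension, relabelling (MP_de303a_co, Q2). Adaptation of `Helper29/UL/ORD.lean`. -/

set_option autoImplicit false

open Set

namespace Pool.UL.H54.ORD2

open Pool.UL
open Pool.Agent.Helper29.UL (exists_topo)

theorem main : S_ORD2 := by
  intro H Δ V E hac hout hdeg
  classical
  obtain ⟨n, lab, hn2, hinj, hsur, h01, hstep⟩ := hout
  obtain ⟨e, he⟩ : ∃ e : V ≃ Fin n, ∀ i (hi : i < n), (e (lab i) : ℕ) = i := by
    have hb : Function.Bijective (fun i : Fin n => lab i) := by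
      constructor
      · intro i j hij
        exact Fin.ext (hinj i i.2 j j.2 hij)
      · intro x
        obtain ⟨i, hi, hx⟩ := hsur x
        exact ⟨⟨i, hi⟩, hx⟩
    refine ⟨(Equiv.ofBijective _ hb).symm, fun i hi => ?_⟩
    have h : (Equiv.ofBijective _ hb).symm (lab i) = ⟨i, hi⟩ := by
      rw [Equiv.symm_apply_eq]
      rfl
    rw [h]
  have : Fintype V := Fintype.ofEquiv _ e.symm
  have hn : n = Fintype.card V := by rw [Fintype.card_congr e, Fintype.card_fin]
  obtain ⟨σ, hσ, hσE, hσn⟩ := exists_topo E hac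
  rw [← hn] at hσn
  let E' : ℕ → ℕ → Prop := fun i j => ∃ u v, (e u : ℕ) = i ∧ (e v : ℕ) = j ∧ E u v
  have hE' : ∀ u v, E' (e u) (e v) → E u v := by
    rintro u v ⟨u', v', h1, h2, h3⟩
    have h4 : u' = u := e.injective (Fin.ext h1)
    have h5 : v' = v := e.injective (Fin.ext h2)
    rw [← h4, ← h5]
    exact h3
  have hirr : ∀ v, ¬ E v v := fun v h => hac v (Relation.TransGen.single h)
  have hasym : ∀ u v, E u v → ¬ E v u := fun u v h1 h2 =>
    hac u ((Relation.TransGen.single h1).tail h2)
  let σ' : ℕ → ℕ := fun i => if h : i < n then σ (e.symm ⟨i, h⟩) else i + n + 1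
  have hσ'1 : ∀ v : V, σ' (e v) = σ v := by
    intro v
    have : (e v : ℕ) < n := (e v).2
    simp only [σ', this, dif_pos]
    congr 1
    simp
  have hσ' : Function.Injective σ' := by
    intro i j hij
    by_cases hi : i < n
    · by_cases hj : j < n
      · simp only [σ', hi, hj, dif_pos] at hij
        have := e.symm.injective (hσ hij)
        exact Fin.ext_iff.1 this
      · simp only [σ', hi, hj, dif_pos, dif_neg, not_false_eq_true] at hij
        have := hσn (e.symm ⟨i, hi⟩)
        omega
    · by_cases hj : j < n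
      · simp only [σ', hi, hj, dif_pos, dif_neg, not_false_eq_true] at hij
        have := hσn (e.symm ⟨j, hj⟩)
        omega
      · simp only [σ', hi, hj, dif_neg, not_false_eq_true] at hij
        omega
  have h1 : ∀ i j, E' i j → i < n ∧ j < n ∧ σ' i < σ' j := by
    rintro i j ⟨u, v, rfl, rfl, huv⟩
    refine ⟨(e u).2, (e v).2, ?_⟩
    rw [hσ'1, hσ'1]
    exact hσE u v huv
  have hEE : ∀ i j, i < n → j < n → (E' i j ↔ E (lab i) (lab j)) := by
    intro i j hi hj
    constructor
    · intro h
      apply hE'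
      rw [he i hi, he j hj]
      exact h
    · intro h
      exact ⟨lab i, lab j, he i hi, he j hj, h⟩
  have h2 : TwoTreeN n E' := by
    refine ⟨hn2, ?_, fun i hi h2i => ?_⟩
    · rw [hEE 0 1 (by omega) (by omega), hEE 1 0 (by omega) (by omega)]
      exact h01
    · obtain ⟨j, hj, k, hk, hjk, hadj, hl⟩ := hstep i hi h2i
      refine ⟨j, hj, k, hk, hjk, ?_, fun l hl' => ?_⟩
      · rw [hEE j k (by omega) (by omega), hEE k j (by omega) (by omega)]
        exact hadj
      · rw [hEE l i (by omega) hi, hEE i l hi (by omega)]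
        exact hl l hl'
  have h3 : DegLe E' Δ := by
    intro v L hL hLE
    by_cases hv : v < n
    · -- the vertex of `V`
      let v₀ : V := e.symm ⟨v, hv⟩
      have hv₀ : (e v₀ : ℕ) = v := by simp [v₀]
      -- the other end
      have hoth : ∀ p ∈ L, ∃ u : V, (E u v₀ ∧ p = ((e u : ℕ), (e v₀ : ℕ))) ∨
          (E v₀ u ∧ p = ((e v₀ : ℕ), (e u : ℕ))) := by
        rintro ⟨a, b⟩ hp
        obtain ⟨h4, u, w, h5, h6, h7⟩ := hLE _ hp
        simp only at h4 h5 h6
        rcases h4 with h4 | h4
        · refine ⟨w, Or.inr ?_⟩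
          have : u = v₀ := e.injective (Fin.ext (by rw [h5, h4, hv₀]))
          subst this
          exact ⟨h7, by rw [h5, h6]⟩
        · refine ⟨u, Or.inl ?_⟩
          have : w = v₀ := e.injective (Fin.ext (by rw [h6, h4, hv₀]))
          subst this
          exact ⟨h7, by rw [h5, h6]⟩
      have : Nonempty V := ⟨v₀⟩
      choose! g hg using hoth
      have h8 : (L.toFinset : Set (ℕ × ℕ)).encard ≤ ({u | E u v₀ ∨ E v₀ u} : Set V).encard := by
        apply Set.encard_le_encard_of_injOn (f := g)
        · intro p hp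
          have hp' : p ∈ L := by simpa using hp
          rcases hg p hp' with h | h
          · exact Or.inl h.1
          · exact Or.inr h.1
        · intro p hp q hq hpq
          have hp' : p ∈ L := by simpa using hp
          have hq' : q ∈ L := by simpa using hq
          rcases hg p hp' with h | h <;> rcases hg q hq' with h' | h'
          · rw [h.2, h'.2, hpq]
          · exact absurd h'.1 (by rw [← hpq]; exact hasym _ _ h.1)
          · exact absurd h'.1 (by rw [← hpq]; exact hasym _ _ h.1)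
          · rw [h.2, h'.2, hpq]
      have h9 := h8.trans (hdeg v₀)
      rw [Set.encard_coe_eq_coe_finsetCard, List.toFinset_card_of_nodup hL] at h9
      exact_mod_cast h9
    · have hnil : L = [] := by
        apply List.eq_nil_iff_forall_not_mem.2
        intro p hp
        obtain ⟨h4, h5⟩ := hLE p hp
        have h6 := h1 _ _ h5
        rcases h4 with h4 | h4
        · rw [h4] at h6
          exact hv h6.1
        · rw [h4] at h6
          exact hv h6.2.1
      simp [hnil]
  obtain ⟨X, Y, f, hYinj, hF⟩ := H Δ n E' σ' hσ' h1 h2 h3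
  have hY : ∀ u v : V, E u v → Y (e u) < Y (e v) := fun u v huv =>
    (hF _ _ ⟨u, v, rfl, rfl, huv⟩).1
  have hymem : ∀ u v : V, E u v → ∀ t ∈ Icc (0 : ℝ) 1,
      Y (e u) + t * (Y (e v) - Y (e u)) ∈ Icc (Y (e u)) (Y (e v)) := by
    intro u v huv t ht
    have := hY u v huv
    constructor
    · nlinarith [ht.1]
    · nlinarith [ht.2]
  let D : UpwardDrawing E :=
    { pos := fun v => (X (e v), Y (e v))
      inj := by
        intro u v huv
        have h4 : Y (e u) = Y (e v) := (Prod.ext_iff.1 huv).2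
        have h5 := hYinj _ (e u).2 _ (e v).2 h4
        exact e.injective (Fin.ext h5)
      arc := fun u v t => (f (e u) (e v) (Y (e u) + t * (Y (e v) - Y (e u))),
        Y (e u) + t * (Y (e v) - Y (e u)))
      cont := by
        intro u v huv
        have h4 := (hF _ _ ⟨u, v, rfl, rfl, huv⟩).2.1
        have h5 : ContinuousOn (fun t : ℝ => Y (e u) + t * (Y (e v) - Y (e u))) (Icc 0 1) := by
          fun_prop
        exact ContinuousOn.prodMk (h4.comp h5 (fun t ht => hymem u v huv t ht)) h5
      start := by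
        intro u v huv
        have h4 := (hF _ _ ⟨u, v, rfl, rfl, huv⟩).2.2.1
        simp only [zero_mul, add_zero, h4]
      stop := by
        intro u v huv
        have h4 := (hF _ _ ⟨u, v, rfl, rfl, huv⟩).2.2.2.1
        simp only [one_mul, add_sub_cancel, h4]
      up := by
        intro u v huv s hs t ht hst
        have h4 := hY u v huv
        show Y (e u) + s * (Y (e v) - Y (e u)) < Y (e u) + t * (Y (e v) - Y (e u))
        nlinarith
      avoid := by
        intro u v w huv hwu hwv t ht heq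
        have h4 := (hF _ _ ⟨u, v, rfl, rfl, huv⟩).2.2.2.2.1
        have h5 : f (e u) (e v) (Y (e u) + t * (Y (e v) - Y (e u))) = X (e w) :=
          (Prod.ext_iff.1 heq).1
        have h6 : Y (e u) + t * (Y (e v) - Y (e u)) = Y (e w) := (Prod.ext_iff.1 heq).2
        have h7 := hymem u v huv t ht
        rw [h6] at h5 h7
        exact h4 (e w) (e w).2 (fun h => hwu (e.injective (Fin.ext h)))
          (fun h => hwv (e.injective (Fin.ext h))) h7 h5 }
  refine ⟨D, ?_⟩
  intro u v huv
  have h4 := (hF _ _ ⟨u, v, rfl, rfl, huv⟩).2.2.2.2.2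
  refine le_trans ?_ h4
  have hpt : ∀ u v : V, E u v → ∀ q : ℝ × ℝ, q ∈ D.arc u v '' Icc 0 1 →
      q.2 ∈ Icc (Y (e u)) (Y (e v)) ∧ q.1 = f (e u) (e v) q.2 := by
    rintro u v huv q ⟨t, ht, rfl⟩
    exact ⟨hymem u v huv t ht, rfl⟩
  apply Set.encard_le_encard_of_injOn
    (f := fun q : (V × V) × (ℝ × ℝ) => (((e q.1.1 : ℕ), (e q.1.2 : ℕ)), q.2.2))
  · rintro ⟨⟨k, l⟩, q⟩ ⟨a1, a2, a3, a4, a5⟩
    simp only at a1 a2 a3 a4 a5
    obtain ⟨b1, b2⟩ := hpt u v huv q a3
    obtain ⟨b3, b4⟩ := hpt k l a1 q a4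
    refine ⟨⟨k, l, rfl, rfl, a1⟩, ?_, b1, b3, ?_, ?_⟩
    · intro h
      apply a2
      have c1 := (Prod.ext_iff.1 h).1
      have c2 := (Prod.ext_iff.1 h).2
      exact Prod.ext (e.injective (Fin.ext c1)) (e.injective (Fin.ext c2))
    · show f (e u) (e v) q.2 = f (e k) (e l) q.2
      rw [← b2, ← b4]
    · rintro ⟨w, w1, w2, w3⟩
      simp only at w2 w3
      have huv' := hF _ _ ⟨u, v, rfl, rfl, huv⟩
      rcases w1 with rfl | rfl
      · refine a5 ⟨u, Or.inl rfl, ?_, ?_⟩
        · rcases w2 with w2 | w2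
          · exact Or.inl (e.injective (Fin.ext w2))
          · exact Or.inr (e.injective (Fin.ext w2))
        · refine Prod.ext ?_ w3
          rw [b2, w3]
          exact huv'.2.2.1
      · refine a5 ⟨v, Or.inr rfl, ?_, ?_⟩
        · rcases w2 with w2 | w2
          · exact Or.inl (e.injective (Fin.ext w2))
          · exact Or.inr (e.injective (Fin.ext w2))
        · refine Prod.ext ?_ w3
          rw [b2, w3]
          exact huv'.2.2.2.1
  · rintro ⟨⟨k, l⟩, q⟩ ⟨a1, a2, a3, a4, a5⟩ ⟨⟨k', l'⟩, q'⟩ ⟨a1', a2', a3', a4', a5'⟩ heq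
    simp only at a3 a3' heq
    obtain ⟨b1, b2⟩ := hpt u v huv q a3
    obtain ⟨b1', b2'⟩ := hpt u v huv q' a3'
    have c0 := Prod.ext_iff.1 heq
    have c1 := (Prod.ext_iff.1 c0.1).1
    have c2 := (Prod.ext_iff.1 c0.1).2
    have c3 : q.2 = q'.2 := c0.2
    have c4 : k = k' := e.injective (Fin.ext c1)
    have c5 : l = l' := e.injective (Fin.ext c2)
    have c6 : q = q' := Prod.ext (by rw [b2, b2', c3]) c3
    rw [c4, c5, c6]

end Pool.UL.H54.ORD2
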